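import Pool.Agent.Q256.FX.Stm

/-!
# Project FX (helper256): job CLS (helper251)

A large part of the points lies on a hypersurface of bounded degree: choice of a prime of good
reduction for every point, pigeonhole over the residue classes, Hensel (job HEN) and the determinant
method in one class (job DET).
-/

set_option autoImplicit false

open MvPolynomial Filter

namespace Pool.Agent.Q251.FX

open Pool.Agent.Q256.FX

/-! ### pigeonhole -/

theorem pigeon {α β : Type*} [DecidableEq β] (s : Finset α) (t : Finset β) (f : α → β)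
    (hf : ∀ a ∈ s, f a ∈ t) (ht : t.Nonempty) :
    ∃ y ∈ t, s.card ≤ t.card * (s.filter fun a => f a = y).card := by
  by_contra hcon
  push Not at hcon
  have h1 : s.card = ∑ y ∈ t, (s.filter fun a => f a = y).card :=
    Finset.card_eq_sum_card_fiberwise hf
  have h2 : ∑ y ∈ t, t.card * (s.filter fun a => f a = y).card < ∑ _y ∈ t, s.card :=
    Finset.sum_lt_sum_of_nonempty ht hcon
  rw [← Finset.mul_sum, ← h1, Finset.sum_const, smul_eq_mul] at h2
  exact lt_irrefl _ h2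

/-! ### heights of values of polynomials -/

theorem hq_pow_le (a : ℚ) (k : ℕ) : hq (a ^ k) ≤ hq a ^ k := by
  induction k with
  | zero => simp [hq_one]
  | succ k ih =>
    rw [pow_succ, pow_succ]
    exact (hq_mul_le _ _).trans (Nat.mul_le_mul_right _ ih)

theorem hq_prod_le {α : Type*} (s : Finset α) (f : α → ℚ) : hq (∏ a ∈ s, f a) ≤ ∏ a ∈ s, hq (f a) := by
  classical
  induction s using Finset.induction_on with
  | empty => simp [hq_one]
  | insert a s ha ih =>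
    rw [Finset.prod_insert ha, Finset.prod_insert ha]
    exact (hq_mul_le _ _).trans (Nat.mul_le_mul_left _ ih)

theorem hq_sum_le {α : Type*} (s : Finset α) (f : α → ℚ) (H : ℕ) (hH : ∀ a ∈ s, hq (f a) ≤ H) :
    hq (∑ a ∈ s, f a) ≤ (2 * H) ^ s.card := by
  classical
  induction s using Finset.induction_on with
  | empty => simp [hq_zero]
  | insert a s ha ih =>
    rw [Finset.sum_insert ha, Finset.card_insert_of_notMem ha, pow_succ]
    refine (hq_add_le _ _).trans ?_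
    have h1 := ih fun b hb => hH b (Finset.mem_insert_of_mem hb)
    have h2 := hH a (Finset.mem_insert_self _ _)
    calc 2 * (hq (f a) * hq (∑ b ∈ s, f b)) ≤ 2 * (H * (2 * H) ^ s.card) :=
          Nat.mul_le_mul_left _ (Nat.mul_le_mul h2 h1)
      _ = (2 * H) ^ s.card * (2 * H) := by ring

theorem hq_int_le (z : ℤ) (H : ℕ) (h1 : 1 ≤ H) (hz : z.natAbs ≤ H) : hq (z : ℚ) ≤ H := by
  unfold hq
  simp [hz, h1]

theorem card_supp_le {n : ℕ} (B : ℕ) (S : Finset (Fin n →₀ ℕ)) (hS : ∀ μ ∈ S, ∑ i, μ i ≤ B) :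
    S.card ≤ (B + 1) ^ n := by
  classical
  have h1 : S.card ≤ (Fintype.piFinset fun _ : Fin n => Finset.range (B + 1)).card := by
    refine Finset.card_le_card_of_injOn (fun μ i => μ i) ?_ ?_
    · intro μ hμ
      rw [Finset.mem_coe, Fintype.mem_piFinset]
      intro i
      have h2 := hS μ hμ
      have h3 := Finset.single_le_sum (f := fun i => μ i) (fun _ _ => Nat.zero_le _) (Finset.mem_univ i)
      rw [Finset.mem_range]
      change μ i < B + 1
      omega
    · intro μ _ ν _ h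
      ext i
      exact congrFun h i
  rwa [Fintype.card_piFinset_const, Finset.card_range] at h1

theorem mem_supp_le {n : ℕ} {Ψ : MvPolynomial (Fin n) ℤ} {B : ℕ} (hΨ : Ψ.totalDegree ≤ B)
    {μ : Fin n →₀ ℕ} (hμ : μ ∈ Ψ.support) : ∑ i, μ i ≤ B := by
  have h1 := MvPolynomial.le_totalDegree hμ
  rw [Finsupp.sum_fintype _ _ fun _ => rfl] at h1
  exact h1.trans hΨ

/-- the height of the value of a partial derivative -/
theorem hq_pderiv_le {n : ℕ} (X A B : ℕ) (hX : 2 ≤ X) (Ψ : MvPolynomial (Fin n) ℤ) (j : Fin n)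
    (hΨ : Ψ.totalDegree ≤ B) (hc : ∀ μ, (Ψ.coeff μ).natAbs ≤ X ^ B) (x : Fin n → ℚ)
    (hx : ∀ i, hq (x i) ≤ X ^ A) :
    hq (aeval x (pderiv j Ψ)) ≤ X ^ ((1 + (2 * B + A * B)) * (B + 1) ^ n) := by
  classical
  have hX1 : 1 ≤ X := by omega
  have e1 : pderiv j Ψ = ∑ μ ∈ Ψ.support,
      monomial (μ - Finsupp.single j 1) (Ψ.coeff μ * (μ j : ℤ)) := by
    conv_lhs => rw [← MvPolynomial.support_sum_monomial_coeff Ψ]
    rw [map_sum]
    refine Finset.sum_congr rfl fun μ _ => ?_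
    rw [pderiv_monomial]
  rw [e1, map_sum]
  have h1 : ∀ μ ∈ Ψ.support, hq (aeval x (monomial (μ - Finsupp.single j 1)
      (Ψ.coeff μ * (μ j : ℤ)))) ≤ X ^ (2 * B + A * B) := by
    intro μ hμ
    have hs := mem_supp_le hΨ hμ
    rw [aeval_monomial, Finsupp.prod_fintype _ _ fun _ => pow_zero _]
    refine (hq_mul_le _ _).trans ?_
    rw [pow_add]
    refine Nat.mul_le_mul ?_ ?_
    · have h2 : (algebraMap ℤ ℚ) (Ψ.coeff μ * (μ j : ℤ)) = ((Ψ.coeff μ * (μ j : ℤ) : ℤ) : ℚ) := rfl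
      rw [h2]
      refine hq_int_le _ _ (Nat.one_le_pow _ _ (by omega)) ?_
      rw [Int.natAbs_mul, Int.natAbs_natCast, two_mul, pow_add]
      refine Nat.mul_le_mul (hc μ) ?_
      have h3 := Finset.single_le_sum (f := fun i => μ i) (fun _ _ => Nat.zero_le _) (Finset.mem_univ j)
      calc μ j ≤ B := h3.trans hs
        _ ≤ 2 ^ B := Nat.lt_two_pow_self.le
        _ ≤ X ^ B := Nat.pow_le_pow_left hX B
    · refine (hq_prod_le _ _).trans ?_
      calc ∏ i, hq (x i ^ ((μ - Finsupp.single j 1 : Fin n →₀ ℕ) i)) ≤ ∏ i, (X ^ A) ^ (μ i) := by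
            refine Finset.prod_le_prod' fun i _ => ?_
            refine (hq_pow_le _ _).trans ?_
            refine (Nat.pow_le_pow_left (hx i) _).trans ?_
            refine Nat.pow_le_pow_right (Nat.one_le_pow _ _ (by omega)) ?_
            rw [Finsupp.tsub_apply]
            exact Nat.sub_le _ _
        _ = (X ^ A) ^ (∑ i, μ i) := by rw [Finset.prod_pow_eq_pow_sum]
        _ ≤ (X ^ A) ^ B := Nat.pow_le_pow_right (Nat.one_le_pow _ _ (by omega)) hs
        _ = X ^ (A * B) := by rw [← pow_mul]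
  refine (hq_sum_le _ _ _ h1).trans ?_
  have h4 : 2 * X ^ (2 * B + A * B) ≤ X ^ (1 + (2 * B + A * B)) := by
    rw [pow_add X 1, pow_one]
    exact Nat.mul_le_mul_right _ hX
  have h5 := card_supp_le B Ψ.support fun μ hμ => mem_supp_le hΨ hμ
  calc (2 * X ^ (2 * B + A * B)) ^ Ψ.support.card
      ≤ (X ^ (1 + (2 * B + A * B))) ^ Ψ.support.card := Nat.pow_le_pow_left h4 _
    _ ≤ (X ^ (1 + (2 * B + A * B))) ^ ((B + 1) ^ n) :=
        Nat.pow_le_pow_right (Nat.one_le_pow _ _ (by omega)) h5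
    _ = X ^ ((1 + (2 * B + A * B)) * (B + 1) ^ n) := by rw [← pow_mul]

/-! ### residue classes -/

/-- the residue class of a rational number -/
noncomputable def res (q : ℕ) (x : ℚ) : ZMod q := (x.num : ZMod q) * ((x.den : ℕ) : ZMod q)⁻¹

theorem dv_of_res {q : ℕ} (hq' : q.Prime) {x y : ℚ} (hx : ¬ q ∣ x.den) (hy : ¬ q ∣ y.den)
    (h : res q x = res q y) : Dv q (x - y) := by
  have := Fact.mk hq'
  have hx' : ((x.den : ℕ) : ZMod q) ≠ 0 := fun h0 => hx ((ZMod.natCast_eq_zero_iff _ _).1 h0)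
  have hy' : ((y.den : ℕ) : ZMod q) ≠ 0 := fun h0 => hy ((ZMod.natCast_eq_zero_iff _ _).1 h0)
  unfold res at h
  have h1 : (x.num : ZMod q) * (y.den : ℕ) = (y.num : ZMod q) * (x.den : ℕ) := by
    field_simp at h
    rw [h]
    ring
  have h2 : (q : ℤ) ∣ x.num * y.den - y.num * x.den := by
    rw [← ZMod.intCast_zmod_eq_zero_iff_dvd]
    push_cast
    rw [h1]
    ring
  have h3 := Rat.substr_num_den' x y
  have h4 : (q : ℤ) ∣ (x - y).num * x.den * y.den := by
    rw [h3]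
    exact Dvd.dvd.mul_right h2 _
  have hqi : Prime (q : ℤ) := Nat.prime_iff_prime_int.1 hq'
  rcases hqi.dvd_or_dvd h4 with h5 | h5
  · rcases hqi.dvd_or_dvd h5 with h6 | h6
    · exact h6
    · exact absurd (Int.natCast_dvd_natCast.1 h6) hx
  · exact absurd (Int.natCast_dvd_natCast.1 h5) hy

/-! ### primes -/

theorem exists_primes (m : ℕ) (hm : 1 ≤ m) (r : ℕ) (X : ℕ) (hX : 2 ^ ((r + 1) * m) ≤ X) :
    ∃ P : Finset ℕ, P.card = r ∧ ∀ q ∈ P, q.Prime ∧ X ≤ q ^ m ∧ q ^ m ≤ X ^ 2 := by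
  classical
  have hX2 : 2 ≤ X := by
    refine le_trans ?_ hX
    calc 2 = 2 ^ 1 := rfl
      _ ≤ 2 ^ ((r + 1) * m) := Nat.pow_le_pow_right (by norm_num) (Nat.mul_pos (by omega) hm)
  have hex : ∃ k, X ≤ k ^ m := ⟨X, Nat.le_self_pow (by omega) X⟩
  obtain ⟨k, hk⟩ : ∃ k, k = Nat.find hex := ⟨_, rfl⟩
  have hk1 : X ≤ k ^ m := hk ▸ Nat.find_spec hex
  have hk2 : 2 ≤ k := by
    by_contra hcon
    have : k ^ m ≤ 1 ^ m := Nat.pow_le_pow_left (by omega) m
    rw [one_pow] at this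
    omega
  have hk3 : (k - 1) ^ m < X := by
    by_contra hcon
    push Not at hcon
    have := Nat.find_min' hex hcon
    omega
  have hk4 : k ^ m ≤ 2 ^ m * X := by
    calc k ^ m ≤ (2 * (k - 1)) ^ m := Nat.pow_le_pow_left (by omega) m
      _ = 2 ^ m * (k - 1) ^ m := mul_pow _ _ _
      _ ≤ 2 ^ m * X := Nat.mul_le_mul_left _ hk3.le
  have hp : ∀ j : ℕ, ∃ p, p.Prime ∧ 2 ^ j * k < p ∧ p ≤ 2 * (2 ^ j * k) := fun j =>
    Nat.exists_prime_lt_and_le_two_mul _ (by positivity)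
  choose p hp1 hp2 hp3 using hp
  have hmono : StrictMono p := by
    refine strictMono_nat_of_lt_succ fun j => ?_
    calc p j ≤ 2 * (2 ^ j * k) := hp3 j
      _ = 2 ^ (j + 1) * k := by ring
      _ < p (j + 1) := hp2 _
  refine ⟨(Finset.range r).image p, ?_, ?_⟩
  · rw [Finset.card_image_of_injective _ hmono.injective, Finset.card_range]
  · intro q hq'
    obtain ⟨j, hj, rfl⟩ := Finset.mem_image.1 hq'
    rw [Finset.mem_range] at hj
    refine ⟨hp1 j, ?_, ?_⟩
    · refine hk1.trans (Nat.pow_le_pow_left ?_ m)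
      calc k = 1 * k := (one_mul k).symm
        _ ≤ 2 ^ j * k := Nat.mul_le_mul_right _ Nat.one_le_two_pow
        _ ≤ p j := (hp2 j).le
    · calc p j ^ m ≤ (2 * (2 ^ j * k)) ^ m := Nat.pow_le_pow_left (hp3 j) m
        _ = 2 ^ ((j + 1) * m) * k ^ m := by
            rw [pow_mul, ← mul_pow]
            congr 1
            ring
        _ ≤ 2 ^ (r * m) * (2 ^ m * X) :=
            Nat.mul_le_mul (Nat.pow_le_pow_right (by norm_num) (Nat.mul_le_mul_right _ hj)) hk4
        _ = 2 ^ ((r + 1) * m) * X := by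
            rw [← mul_assoc, ← pow_add]
            congr 2
            ring
        _ ≤ X * X := Nat.mul_le_mul_right _ hX
        _ = X ^ 2 := (sq X).symm

/-- a nonzero number of bounded size is prime to one of many primes -/
theorem exists_good (m K X : ℕ) (hX : 2 ≤ X) (P : Finset ℕ) (hP : m * K < P.card)
    (hP2 : ∀ q ∈ P, q.Prime ∧ X ≤ q ^ m) (D : ℕ) (hD : D ≠ 0) (hD2 : D ≤ X ^ K) :
    ∃ q ∈ P, ¬ q ∣ D := by
  by_contra hcon
  push Not at hcon
  have h1 : ∏ q ∈ P, q ∣ D :=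
    Finset.prod_primes_dvd D (fun q hq' => (hP2 q hq').1.prime) hcon
  have h2 : ∏ q ∈ P, q ≤ D := Nat.le_of_dvd (Nat.pos_of_ne_zero hD) h1
  have h3 : X ^ P.card ≤ (X ^ K) ^ m := by
    calc X ^ P.card = ∏ _q ∈ P, X := by rw [Finset.prod_const]
      _ ≤ ∏ q ∈ P, q ^ m := Finset.prod_le_prod' fun q hq' => (hP2 q hq').2
      _ = (∏ q ∈ P, q) ^ m := by rw [Finset.prod_pow]
      _ ≤ (X ^ K) ^ m := Nat.pow_le_pow_left (h2.trans hD2) m
  rw [← pow_mul] at h3
  have h4 := (Nat.pow_le_pow_iff_right (by omega : 1 < X)).1 h3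
  rw [mul_comm] at h4
  omega

theorem num_natAbs_le (r : ℚ) : r.num.natAbs ≤ hq r := le_max_left _ _
theorem den_le (r : ℚ) : r.den ≤ hq r := le_max_right _ _

theorem cls (h1 : S_det) (h2 : S_hen) : S_cls := by
  classical
  intro n A m hm
  obtain ⟨b, C1, X1, hdet⟩ := h1 n A m hm
  refine ⟨b, fun B => ?_⟩
  -- the size of the denominators and of the derivative
  obtain ⟨K, hK⟩ : ∃ K, K = A * n + A + (1 + (2 * B + A * B)) * (B + 1) ^ (n + 1) := ⟨_, rfl⟩
  obtain ⟨r, hr⟩ : ∃ r, r = m * K + 1 := ⟨_, rfl⟩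
  refine ⟨max C1 (r ^ m), max X1 (max 2 (2 ^ ((r + 1) * m))), fun X hX ι T y w Ψ hΨ hΨc hy hw h0 h0' => ?_⟩
  have hX1 : X1 ≤ X := (le_max_left _ _).trans hX
  have hX2 : 2 ≤ X := (le_max_left _ _).trans ((le_max_right _ _).trans hX)
  have hX3 : 2 ^ ((r + 1) * m) ≤ X := (le_max_right _ _).trans ((le_max_right _ _).trans hX)
  have hC1 : X ^ C1 ≤ X ^ (max C1 (r ^ m)) := Nat.pow_le_pow_right (by omega) (le_max_left _ _)
  rcases T.eq_empty_or_nonempty with rfl | hT
  · refine ⟨∅, le_rfl, ?_, 1, one_ne_zero, ?_, ?_, ?_⟩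
    · rw [Finset.card_empty, zero_pow (by omega)]
      exact Nat.zero_le _
    · rw [MvPolynomial.totalDegree_one]
      exact Nat.zero_le _
    · intro μ
      rw [MvPolynomial.coeff_one]
      split_ifs
      · simpa using Nat.one_le_pow _ _ (by omega)
      · simp
    · intro s hs
      simp at hs
  obtain ⟨P, hP1, hP2⟩ := exists_primes m hm r X hX3
  -- the discriminating number
  obtain ⟨D, hD⟩ : ∃ D : ι → ℕ, D = fun s => (∏ i, (y s i).den) * (w s).den *
      (aeval (cn (w s) (y s)) (pderiv 0 Ψ) : ℚ).num.natAbs := ⟨_, rfl⟩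
  have hD0 : ∀ s ∈ T, D s ≠ 0 := by
    intro s hs
    rw [hD]
    refine mul_ne_zero (mul_ne_zero ?_ (w s).den_nz) ?_
    · exact Finset.prod_ne_zero_iff.2 fun i _ => (y s i).den_nz
    · rw [Int.natAbs_ne_zero, ne_eq, Rat.num_eq_zero]
      exact h0' s hs
  have hD1 : ∀ s ∈ T, D s ≤ X ^ K := by
    intro s hs
    rw [hD, hK, pow_add, pow_add]
    refine Nat.mul_le_mul (Nat.mul_le_mul ?_ ((den_le _).trans (hw s hs))) ?_
    · calc ∏ i, (y s i).den ≤ ∏ _i : Fin n, X ^ A :=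
            Finset.prod_le_prod' fun i _ => (den_le _).trans (hy s hs i)
        _ = X ^ (A * n) := by
            rw [Finset.prod_const, Finset.card_univ, Fintype.card_fin, ← pow_mul]
    · refine (num_natAbs_le _).trans (hq_pderiv_le X A B hX2 Ψ 0 hΨ hΨc _ fun i => ?_)
      refine Fin.cases ?_ (fun i => ?_) i
      · simpa using hw s hs
      · simpa using hy s hs i
  have hgood : ∀ s, ∃ q, q ∈ P ∧ (s ∈ T → ¬ q ∣ D s) := by
    intro s
    by_cases hs : s ∈ T
    · obtain ⟨q, hq1, hq2⟩ := exists_good m K X hX2 P (by omega)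
        (fun q hq' => ⟨(hP2 q hq').1, (hP2 q hq').2.1⟩) (D s) (hD0 s hs) (hD1 s hs)
      exact ⟨q, hq1, fun _ => hq2⟩
    · have hPn : P.Nonempty := Finset.card_pos.1 (by omega)
      obtain ⟨q, hq1⟩ := hPn
      exact ⟨q, hq1, fun h => absurd h hs⟩
  choose Q hQ1 hQ2 using hgood
  obtain ⟨q, hqP, hq1⟩ := pigeon T P Q (fun s _ => hQ1 s) (Finset.card_pos.1 (by omega))
  obtain ⟨hqp, hqX, hqX2⟩ := hP2 q hqP
  have := Fact.mk hqp
  obtain ⟨Tq, hTq⟩ : ∃ Tq, Tq = T.filter fun a => Q a = q := ⟨_, rfl⟩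
  rw [← hTq, hP1] at hq1
  obtain ⟨c, -, hc⟩ := pigeon Tq (Finset.univ : Finset (Fin (n + 1) → ZMod q))
    (fun s i => res q (cn (w s) (y s) i)) (fun _ _ => Finset.mem_univ _) Finset.univ_nonempty
  rw [Finset.card_univ, Fintype.card_fun, Fintype.card_fin, ZMod.card] at hc
  obtain ⟨T', hT'⟩ : ∃ T', T' = Tq.filter fun s => (fun i => res q (cn (w s) (y s) i)) = c := ⟨_, rfl⟩
  rw [← hT'] at hc
  have hsub1 : ∀ s ∈ T', s ∈ T ∧ ¬ q ∣ D s ∧ (fun i => res q (cn (w s) (y s) i)) = c := by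
    intro s hs
    rw [hT', Finset.mem_filter, hTq, Finset.mem_filter] at hs
    refine ⟨hs.1.1, ?_, hs.2⟩
    have := hQ2 s hs.1.1
    rwa [hs.1.2] at this
  have hden : ∀ s ∈ T', (∀ i, ¬ q ∣ (y s i).den) ∧ ¬ q ∣ (w s).den ∧
      ¬ Dv q (aeval (cn (w s) (y s)) (pderiv 0 Ψ)) := by
    intro s hs
    have h3 := (hsub1 s hs).2.1
    rw [hD] at h3
    refine ⟨fun i h4 => h3 ?_, fun h4 => h3 ?_, fun h4 => h3 ?_⟩
    · exact Dvd.dvd.mul_right (Dvd.dvd.mul_right (h4.trans (Finset.dvd_prod_of_mem (fun i => (y s i).den) (Finset.mem_univ i))) _) _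
    · exact Dvd.dvd.mul_right (Dvd.dvd.mul_left h4 _) _
    · exact Dvd.dvd.mul_left (Int.natCast_dvd.1 h4) _
  have hres : ∀ s ∈ T', ∀ t ∈ T', (∀ i, Dv q (y s i - y t i)) ∧ Dv q (w s - w t) := by
    intro s hs t ht
    have e1 := ((hsub1 s hs).2.2).trans ((hsub1 t ht).2.2).symm
    refine ⟨fun i => ?_, ?_⟩
    · have e2 := congrFun e1 i.succ
      simp only [Fin.cons_succ] at e2
      exact dv_of_res hqp ((hden s hs).1 i) ((hden t ht).1 i) e2
    · have e2 := congrFun e1 0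
      simp only [Fin.cons_zero] at e2
      exact dv_of_res hqp (hden s hs).2.1 (hden t ht).2.1 e2
  refine ⟨T', fun s hs => (hsub1 s hs).1, ?_, ?_⟩
  · have h3 : T.card ≤ r * (q ^ (n + 1) * T'.card) := hq1.trans (Nat.mul_le_mul_left _ hc)
    calc T.card ^ m ≤ (r * (q ^ (n + 1) * T'.card)) ^ m := Nat.pow_le_pow_left h3 m
      _ = r ^ m * (q ^ m) ^ (n + 1) * T'.card ^ m := by
          rw [mul_pow, mul_pow, ← pow_mul, ← pow_mul, mul_comm (n + 1) m, mul_assoc]
      _ ≤ max C1 (r ^ m) * (X ^ 2) ^ (n + 1) * T'.card ^ m :=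
          Nat.mul_le_mul_right _ (Nat.mul_le_mul (le_max_right _ _) (Nat.pow_le_pow_left hqX2 _))
      _ = max C1 (r ^ m) * X ^ (2 * (n + 1)) * T'.card ^ m := by rw [← pow_mul]
  · obtain ⟨F, hF1, hF2, hF3, hF4⟩ := hdet X hX1 q hqp hqX hqX2 {s // s ∈ T'} (fun s => y s) (fun s => w s)
      (fun s i => hy s (hsub1 s s.2).1 i) (fun s => hw s (hsub1 s s.2).1)
      (fun s i => (hden s s.2).1 i) (fun s => (hden s s.2).2.1)
      (fun s t i => (hres s s.2 t t.2).1 i)
      (h2 n q hqp {s // s ∈ T'} (fun s => y s) (fun s => w s) Ψ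
        (fun s i => (hden s s.2).1 i) (fun s => (hden s s.2).2.1)
        (fun s t i => (hres s s.2 t t.2).1 i) (fun s t => (hres s s.2 t t.2).2)
        (fun s => h0 s (hsub1 s s.2).1) (fun s => (hden s s.2).2.2))
    exact ⟨F, hF1, hF2, fun μ => (hF3 μ).trans hC1, fun s hs => hF4 ⟨s, hs⟩⟩

end Pool.Agent.Q251.FX
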