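import Pool.Agent.Q256.FX.Stm

/-!
# Project FX (helper256): job PRIM (helper251)

Primitive coordinates and the height over `ℚ`.
-/

set_option autoImplicit false

open MvPolynomial Filter

namespace Pool.Agent.Q251.FX

open Pool.Agent.Q256.FX

theorem gcd_aux (a b : ℤ) : a.gcd (normalize b) = a.gcd b := by
  rw [← Int.abs_eq_normalize, Int.gcd_eq_natAbs, Int.gcd_eq_natAbs, Int.natAbs_abs]

theorem height_cop (u : Fin 2 → ℤ) (h : IsCoprime (u 0) (u 1)) :
    Height.mulHeight (fun i => (u i : ℚ)) = ((max (u 0).natAbs (u 1).natAbs : ℕ) : ℝ) := by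
  have hg : (Finset.univ : Finset (Fin 2)).gcd u = 1 := by
    have h1 := Int.isCoprime_iff_gcd_eq_one.1 h
    rw [Finset.univ_fin2, Finset.gcd_insert, Finset.gcd_singleton, ← Int.coe_gcd,
      gcd_aux, h1]
    rfl
  have h2 := Rat.mulHeight_eq_max_abs_of_gcd_eq_one hg
  have h3 : (⨆ i, |u i|) = ((max (u 0).natAbs (u 1).natAbs : ℕ) : ℤ) := by
    push_cast
    refine le_antisymm (ciSup_le fun i => ?_) (max_le ?_ ?_)
    · fin_cases i
      · exact le_max_left _ _
      · exact le_max_right _ _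
    · exact Finite.le_ciSup_of_le 0 le_rfl
    · exact Finite.le_ciSup_of_le 1 le_rfl
  have h4 : (fun i => (u i : ℚ)) = ((↑) : ℤ → ℚ) ∘ u := rfl
  rw [h4, h2, h3, Int.cast_natCast]

theorem prim : S_prim := by
  intro v hv
  by_cases h1 : v 1 = 0
  · have h0 : v 0 ≠ 0 := by
      intro h0
      exact hv (funext fun i => by fin_cases i <;> simp [h0, h1])
    have hc : IsCoprime ((![1, 0] : Fin 2 → ℤ) 0) ((![1, 0] : Fin 2 → ℤ) 1) := by
      simp [isCoprime_one_left]
    have he : v = v 0 • (fun i => (((![1, 0] : Fin 2 → ℤ) i : ℤ) : ℚ)) := by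
      funext i
      fin_cases i <;> simp [h1]
    refine ⟨![1, 0], v 0, h0, he, hc, ?_, fun h => absurd h1 h⟩
    rw [he, Height.mulHeight_smul_eq_mulHeight _ h0]
    exact height_cop _ hc
  · obtain ⟨q, hq'⟩ : ∃ q : ℚ, q = v 0 / v 1 := ⟨_, rfl⟩
    have hd : (q.den : ℚ) ≠ 0 := by exact_mod_cast q.den_nz
    have hc0 : v 1 / q.den ≠ 0 := div_ne_zero h1 hd
    have hc : IsCoprime ((![q.num, (q.den : ℤ)] : Fin 2 → ℤ) 0) ((![q.num, (q.den : ℤ)] : Fin 2 → ℤ) 1) := by
      simpa using Rat.isCoprime_num_den q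
    have he : v = (v 1 / q.den) • (fun i => (((![q.num, (q.den : ℤ)] : Fin 2 → ℤ) i : ℤ) : ℚ)) := by
      funext i
      fin_cases i
      · have h5 : (q.num : ℚ) = q * q.den := (Rat.mul_den_eq_num q).symm
        simp only [Fin.zero_eta, Pi.smul_apply, smul_eq_mul, Matrix.cons_val_zero]
        rw [h5, hq']
        field_simp
      · simp [hd]
    refine ⟨![q.num, (q.den : ℤ)], v 1 / q.den, hc0, he, hc, ?_, fun _ => ?_⟩
    · rw [he, Height.mulHeight_smul_eq_mulHeight _ hc0]
      exact height_cop _ hc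
    · rw [← hq']
      simp [hq]

end Pool.Agent.Q251.FX
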